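import Pool.Agent.P8H64.MHN.AllMain

/-!
# Derived invariance of Hodge numbers: all or nothing

Which linear combinations of Hodge numbers are derived invariants? We show an all-or-nothing law. Let
`D` and `d` be natural numbers, and consider a linear combination `∑ c(p, q) h^{p,q}` of the Hodge
numbers of the smooth projective varieties of dimension `D`, in which only the Hodge numbers with
`d ≤ p, q ≤ D - d` occur, and which is not identically zero in view of the symmetries of the Hodge
diamond.

1. If this single linear combination is a derived invariant in the single dimension `D`, then all
   Hodge numbers are derived invariants in all dimensions `≤ d`. For example, this is so if one Hodge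
   number `h^{p,q}`, on the diagonal or not, is a derived invariant in one dimension `D`; then all
   Hodge numbers are in the dimensions `≤ min(p, q, D - p, D - q)`.
2. For the dimensions `< d` it suffices that the linear combination is almost invariant in dimension
   `D`: its values on derived equivalent `X` and `Y` differ by at most `ε b(X) + B(ε)`, for every
   `ε > 0`, where `b(X)` is the sum of the Betti numbers.
3. So either all Hodge numbers are derived invariants in all dimensions (a positive answer to Q1), or
   there is a number `d` such that, in no dimension `D`, any nontrivial linear combination of the
   Hodge numbers `h^{p,q}`, `d ≤ p, q ≤ D - d`, is a derived invariant, or even almost a derived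
   invariant.

(The derived invariants `∑_{p-q=i} h^{p,q}` from Hochschild homology contain Hodge numbers on the
boundary of the Hodge diamond.)

Proof. Let `F(x, y)` be the difference of the Hodge polynomials of derived equivalent varieties `X`
and `Y` of dimension `d' ≤ d`. The Hodge polynomials of the products of curves and projective planes
of dimension `N = D - d'` span the space of all symmetric polynomials of degree `N`, in particular
the orbit sums of the monomials. So, if `λ` is the linear form, symmetrized under the symmetries of
the Hodge diamond in dimension `D`, one has `λ(F x^i y^j) = 0` for all `0 ≤ i, j ≤ N`. If `F ≠ 0`, let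
`x^a y^b` be the greatest monomial of `F` in the lexicographic order and `(P, Q)` the smallest pair
with `λ(x^P y^Q) ≠ 0`. With `i = P - a`, `j = Q - b` (these are between `0` and `N` because
`d ≤ P, Q ≤ D - d`) all terms but one vanish, a contradiction. For (2) one takes also the product
with a curve of genus `g`, and considers the leading coefficient in `g`: one obtains the same for
`(x + y) F`.

The theorem is stated for a class of smooth projective varieties closed under products which contains
curves of all genera and a surface with the Hodge numbers of the projective plane, and the proof works
for every relation in the place of the derived equivalence which is stable under products.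
-/

set_option autoImplicit false

universe u

namespace Pool.Agent.Results.MP_b4fe5e_ag.AllOrNothing

open Pool.Agent.P8H64.MHN

/-- **Result.** Let `T` be a class of smooth projective varieties closed under products, with curves
of all genera, a surface with the Hodge numbers of the projective plane, and Hodge symmetry. Let `c`
be coefficients which are zero outside the square `d ≤ p, q ≤ D - d`, and such that `∑ c(p, q) h^{p,q}`
is not identically zero in view of the symmetries of the Hodge diamonds in dimension `D`.
(1) If `∑ c(p, q) h^{p,q}` is a derived invariant in dimension `D`, all Hodge numbers are derived
invariants in dimensions `≤ d`.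
(2) If it is almost a derived invariant in dimension `D`, all Hodge numbers are derived invariants in
dimensions `< d`.
(3) Either all Hodge numbers are derived invariants for the members of `T`, or there is `d` such that
for all `D` no linear combination as above is almost a derived invariant in dimension `D`. -/
theorem result {V : Type u} (T : Varieties V) (hcurves : T.HasCurves) (hplane : T.HasPlane)
    (hsymm : T.Symm) :
    (∀ (D d : ℕ) (c : ℕ → ℕ → ℝ), IsDeep c d D → IsNontrivial c D →
      (∀ X Y, T.Deq X Y → T.dim X = D → T.comb c D X = T.comb c D Y) →
      ∀ X Y, T.Deq X Y → T.dim X ≤ d → ∀ a b, T.h X a b = T.h Y a b) ∧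
    (∀ (D d : ℕ) (c : ℕ → ℕ → ℝ), IsDeep c d D → IsNontrivial c D → T.IsAlmostInvariant c D →
      ∀ X Y, T.Deq X Y → T.dim X < d → ∀ a b, T.h X a b = T.h Y a b) ∧
    ((∀ X Y, T.Deq X Y → ∀ a b, T.h X a b = T.h Y a b) ∨
      ∃ d : ℕ, ∀ (D : ℕ) (c : ℕ → ℕ → ℝ), IsDeep c d D → IsNontrivial c D →
        ¬ T.IsAlmostInvariant c D) := by
  refine ⟨fun D d c hc hnz hinv X Y hXY hX a b => all1 T hcurves hsymm hplane hc hnz hinv hXY hX a b,
    fun D d c hc hnz hinv X Y hXY hX a b => all2 T hcurves hsymm hplane hc hnz hinv hXY hX a b, ?_⟩
  by_cases h : ∀ X Y, T.Deq X Y → ∀ a b, T.h X a b = T.h Y a b
  · exact Or.inl h
  · right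
    push Not at h
    obtain ⟨X, Y, hXY, a, b, hab⟩ := h
    exact ⟨T.dim X + 1, fun D c hc hnz hinv =>
      hab (all2 T hcurves hsymm hplane hc hnz hinv hXY (Nat.lt_succ_self _) a b)⟩

end Pool.Agent.Results.MP_b4fe5e_ag.AllOrNothing
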