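import Pool.Agent.P8H64.MHN.Diag

/-!
# One Hodge number `h^{p,p}` in one dimension decides all `h^{a,b}` with `a, b ≤ p` in the lower dimensions

Let `p ≥ 0`. We show: if the single Hodge number `h^{p,p}` is a derived invariant of the smooth projective varieties of
one dimension `n`, then all Hodge numbers `h^{a,b}` with `a, b ≤ p` are derived invariants in all dimensions
`≤ n - 2 p`. So for every `p` the derived invariance of all `h^{a,b}` with `a, b ≤ p`, in all dimensions, is
equivalent to the derived invariance of `h^{p,p}` in infinitely many dimensions; for example that of `h^{2,2}` implies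
that of `h^{0,2}` and `h^{1,2}`, of which it is not known if they are derived invariants.

Proof. Let `D(x, y)` be the difference of the Hodge polynomials of `X` and `Y`. Taking products with `s` curves of
genus `g`, with projective planes and with projective lines, and considering the leading coefficient in `g`, one
finds that the coefficients of `x^p y^p` in `D (x + y)^s (x y)^i (1 + x y)^N` vanish for all `s + 2 i + N = n - dim X`.
By induction on `r ≤ p` all coefficients of `D` of `x^a y^b` with `a, b ≤ r` are zero.

The theorem is stated for a class of smooth projective varieties closed under products which contains curves of all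
genera and a surface with the Hodge numbers of the projective plane, and the proof works for every relation in the
place of the derived equivalence which is stable under products.
-/

set_option autoImplicit false

universe u

namespace Pool.Agent.Results.MP_b4fe5e_ag.DiagonalHodgeNumbers

open Pool.Agent.P8H64.MHN

/-- **Result.** Let `T` be a class of smooth projective varieties closed under products, with curves of all genera and
a surface with the Hodge numbers of the projective plane.
(A) If `h^{p,p}` is a derived invariant for the members of dimension `n`, then `h^{a,b}` is a derived invariant for the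
members of dimension `≤ n - 2 p` for all `a, b ≤ p`.
(B) For every `p` the Hodge numbers `h^{a,b}`, `a, b ≤ p`, are derived invariants for all members if and only if
`h^{p,p}` is a derived invariant for the members of dimension `n` for infinitely many `n`. -/
theorem result {V : Type u} (T : Varieties V) (hcurves : T.HasCurves) (hplane : T.HasPlane) (hsymm : T.Symm) :
    (∀ n p : ℕ, (∀ X Y, T.Deq X Y → T.dim X = n → T.h X p p = T.h Y p p) →
      ∀ X Y, T.Deq X Y → T.dim X + 2 * p ≤ n → ∀ a ≤ p, ∀ b ≤ p, T.h X a b = T.h Y a b) ∧
    (∀ p : ℕ, (∀ X Y, T.Deq X Y → ∀ a ≤ p, ∀ b ≤ p, T.h X a b = T.h Y a b) ↔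
      ∀ N : ℕ, ∃ n : ℕ, N ≤ n ∧ ∀ X Y, T.Deq X Y → T.dim X = n → T.h X p p = T.h Y p p) := by
  refine ⟨fun n p h X Y h1 h2 => diag T hcurves hsymm hplane h X Y h1 h2, fun p => ⟨fun h N => ?_, fun h X Y hXY => ?_⟩⟩
  · exact ⟨N, le_rfl, fun X Y hXY _ => h X Y hXY p le_rfl p le_rfl⟩
  · obtain ⟨n, hn, h1⟩ := h (T.dim X + 2 * p)
    exact diag T hcurves hsymm hplane h1 X Y hXY hn

end Pool.Agent.Results.MP_b4fe5e_ag.DiagonalHodgeNumbers
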