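import Pool.Agent.P8H64.MHN.Mid

/-!
# The middle Hodge number decides the derived invariance of all Hodge numbers

Q1 asks whether all Hodge numbers are derived invariants. We show, for every class of smooth projective
varieties closed under products (all of them, those with trivial canonical bundle, the products of
copies of given varieties, …), that it is enough to know this for one Hodge number, the middle one:

1. Let `X` and `Y` be varieties of dimension `d`. Then
   `2 h^{d,d}(X × Y) ≤ h^{d,d}(X × X) + h^{d,d}(Y × Y)`, with equality if and only if `X` and `Y` have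
   the same Hodge numbers.
2. If `h^{jd,jd}` is a derived invariant in the dimension `2jd`, for one `j ≥ 1`, then all Hodge
   numbers are derived invariants in the dimension `d`.
3. The following are equivalent: all Hodge numbers are derived invariants; `h^{m,m}` is a derived
   invariant in the dimension `2m`, for all `m`; for every `d` it is for some positive multiple `m` of
   `d`; if `X` and `Y` are derived equivalent of dimension `d` then `h^{d,d}(X × X) ≤ h^{d,d}(X × Y)` and
   `h^{d,d}(Y × Y) ≤ h^{d,d}(X × Y)`.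

Proof. By Serre duality `h^{d,d}(X × Y) = ∑ h^{p,q}(X) h^{p,q}(Y)` is the standard inner product of the
Hodge diamonds. If `D(X) ≃ D(Y)` then `X × X`, `X × Y` and `Y × Y` are derived equivalent, and if their
middle Hodge numbers are the same then the difference of the two Hodge diamonds has norm zero.

The proof works for every relation in the place of the derived equivalence which is stable under
products.
-/

set_option autoImplicit false

universe u

namespace Pool.Agent.Results.MP_b4fe5e_ag.MiddleHodgeNumber

open Pool.Agent.P8H64.MHN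

/-- **Result.** Let `T` be a class of smooth projective varieties closed under products. -/
theorem result {V : Type u} (T : Varieties V) :
    (∀ X Y, T.dim X = T.dim Y →
      2 * T.h (T.prod X Y) (T.dim X) (T.dim X) ≤
        T.h (T.prod X X) (T.dim X) (T.dim X) + T.h (T.prod Y Y) (T.dim X) (T.dim X) ∧
      (2 * T.h (T.prod X Y) (T.dim X) (T.dim X) =
        T.h (T.prod X X) (T.dim X) (T.dim X) + T.h (T.prod Y Y) (T.dim X) (T.dim X) ↔
        ∀ p q, T.h X p q = T.h Y p q)) ∧
    (∀ d j : ℕ, 1 ≤ j →
      (∀ X Y, T.Deq X Y → T.dim X = 2 * (j * d) → T.h X (j * d) (j * d) = T.h Y (j * d) (j * d)) →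
      ∀ X Y, T.Deq X Y → T.dim X = d → ∀ p q, T.h X p q = T.h Y p q) ∧
    List.TFAE [
      ∀ X Y, T.Deq X Y → ∀ p q, T.h X p q = T.h Y p q,
      ∀ m : ℕ, ∀ X Y, T.Deq X Y → T.dim X = 2 * m → T.h X m m = T.h Y m m,
      ∀ d : ℕ, ∃ j : ℕ, 1 ≤ j ∧ ∀ X Y, T.Deq X Y → T.dim X = 2 * (j * d) →
        T.h X (j * d) (j * d) = T.h Y (j * d) (j * d),
      ∀ X Y, T.Deq X Y →
        T.h (T.prod X X) (T.dim X) (T.dim X) ≤ T.h (T.prod X Y) (T.dim X) (T.dim X) ∧
        T.h (T.prod Y Y) (T.dim X) (T.dim X) ≤ T.h (T.prod X Y) (T.dim X) (T.dim X)] := by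
  refine ⟨fun X Y h => mid_le T rfl h.symm,
    fun d j hj hm X Y hXY hX p q => mid_pow T d j hj hm X Y hXY hX p q, ?_⟩
  tfae_have 1 → 2 := fun h m X Y hXY _ => h X Y hXY m m
  tfae_have 2 → 3 := fun h d => ⟨1, le_rfl, h (1 * d)⟩
  tfae_have 3 → 1 := by
    intro h X Y hXY p q
    obtain ⟨j, hj, hm⟩ := h (T.dim X)
    exact mid_pow T (T.dim X) j hj hm X Y hXY rfl p q
  tfae_have 1 → 4 := by
    intro h X Y hXY
    have hd := T.deq_dim X Y hXY
    have e1 : ∀ Z p q, T.h (T.prod X Z) p q = T.h (T.prod Y Z) p q :=
      fun Z p q => h _ _ (T.deq_prod X Y Z hXY) p q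
    have e2 : T.h (T.prod X Y) (T.dim X) (T.dim X) = T.h (T.prod Y X) (T.dim X) (T.dim X) := by
      have h1 := mid_prod T (A := X) (B := Y) (m := T.dim X) hd.symm
      have h2 := mid_prod T (A := Y) (B := X) (m := T.dim X) rfl
      rw [ipm_comm] at h1
      exact_mod_cast h1.trans h2.symm
    exact ⟨by rw [e2, e1], by rw [e1]⟩
  tfae_have 4 → 1 := by
    intro h X Y hXY
    obtain ⟨h1, h2⟩ := h X Y hXY
    obtain ⟨h3, h4⟩ := mid_le T (X := X) (Y := Y) rfl (T.deq_dim X Y hXY).symm
    exact h4.1 (by omega)
  tfae_finish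

end Pool.Agent.Results.MP_b4fe5e_ag.MiddleHodgeNumber
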