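import Pool.Agent.P8H56.DH.Fin

/-!
# Derived invariance of Hodge numbers: fivefolds with semiample canonical or anticanonical class

Let `X`, `Y` be smooth projective complex varieties of dimension `n` with `D(X) ≃ D(Y)`; `KRing` is
the Hodge theory of `X` and `FM` the induced isomorphism of cohomology (real, graded by `p - q`,
isometric for the Mukai pairings), as in `HodgeInertia`, and `Intertwines Φ X.c Y.c` says that it
commutes with the first Chern classes (as the equivalence commutes with the Serre functors).

Let `L`, `L'` be classes represented by semipositive forms (`Semipositive`) with which it commutes,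
too: `L = ± m K_X`, `L' = ± m K_Y` if `± K` are semiample, or, more generally, the pull-backs of an
ample class of `B` if the equivalence is relative over a projective variety `B`. Nothing is assumed
on the fibres of the morphisms to `B` (in `SmallDefect` the fibres have to be so small that the
defect of semismallness is at most two).

* For every `n` the dimension of `L ^ (n - 2 - p) H^{p,0}` is a derived invariant. `killed X L k p`
  is the space of the holomorphic `p`-forms killed by `L ^ k`. It is zero if `L ^ (n - 2) ≠ 0`, that
  is, if the dimension of the image of `X` in `B` is at least `n - 2`, and `h^{p,0}` is a derived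
  invariant for all `p` in this case.
* Dimension five. If the numbers `h^{1,0}` agree (Popa and Schnell), and `L ^ 3 ≠ 0` or the spaces
  of the 2-forms killed by `L` have the same dimension, then all `h^{p,q}` with `p ≠ q` agree; and
  all Hodge numbers agree if the Chern numbers `e = c_1 c_4` agree. For `L = ± m K` they agree, since
  the equivalence restricts to equivalences of the complete intersections of general members of
  the linear systems `|m' K|` (Toda) and `c_1 c_4` is a combination of their Euler numbers; the
  2-forms killed by `L` are the 2-forms coming from the common (anti)canonical model `B` if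
  `dim B = 2`, and if `dim B = 1` they are the part of type `(2, 0)` of the first cohomology of `B`
  with coefficients in `R^1 f_* ℚ`, for which the result of Popa and Schnell on the fibres can be
  used. (The case `dim B = 0` is `TorsionCanonicalFivefolds`.) So the Hodge numbers of fivefolds
  with semiample canonical or anticanonical bundle are derived invariants.
* Dimension six. In the same situation (`L ^ 4 ≠ 0`, or equal dimensions of the spaces of the killed
  forms of degree two and three) all `h^{p,q}` with `|p - q| ≥ 2` agree, and `h^{2,2}`; the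
  difference `h^{1,1} - h^{2,1}` is invariant, and all Hodge numbers agree if the numbers `h^{1,1}`
  agree.

Proof. Let `k = n - 2 - p`. The hermitian form `∫ L ^ k x bar y` on the sum of the `H^{p+j,j}` is
invariant up to sign changes (isometry and commutation with `c` and `L`). Only the pieces
`j = 0, 1, 2` contribute to its negative index, which is twice the dimension of `L ^ k H^{p,0}`: on
`H^{p+1,1}` the form is negative definite on `ω C`, `C` a complement of the killed forms; and it
is nonnegative on the classes `x` with `L ^ k ω x = 0`. The last claim is proved by a degeneration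
`L + t ω → L`: for `t > 0` the form has the index `h^{p,0}`, and the negative vectors `ω y`, `y`
killed by `L ^ i`, disappear with different speeds; one has to see that they do not disturb the
limit, which follows from a bound for each of the mixed forms `∫ L ^ i ω ^ (k - i) x bar x` on the
coset `x + ω H^{p,0}`.
-/

set_option autoImplicit false

open Module

namespace Pool.Agent.Results.MP_b4fe5e_ag.SemiampleFivefolds

open Pool.Agent.W539.DI Pool.Agent.R929.DH Pool.Agent.P8H56.DH

/-- **Theorem.** -/
theorem result :
    (∀ (n : ℕ) (X Y : KRing n) (Φ : FM X Y) (L : X.R) (L' : Y.R), Intertwines Φ X.c Y.c →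
      Intertwines Φ L L' → Semipositive X L → Semipositive Y L' →
      (∀ p k : ℕ, p + k + 2 = n →
        (X.h p 0 : ℤ) - finrank ℂ (killed X L k p) = Y.h p 0 - finrank ℂ (killed Y L' k p)) ∧
      (∀ m : ℕ, m + 2 = n → L ^ m ≠ 0 → ∀ p : ℕ, X.h p 0 = Y.h p 0)) ∧
    (∀ (X Y : KRing 5) (Φ : FM X Y) (L : X.R) (L' : Y.R), Intertwines Φ X.c Y.c →
      Intertwines Φ L L' → Semipositive X L → Semipositive Y L' → X.h 1 0 = Y.h 1 0 →
      L ^ 3 ≠ 0 ∨ finrank ℂ (killed X L 1 2) = finrank ℂ (killed Y L' 1 2) →
      (∀ p q : ℤ, p ≠ q → X.h p q = Y.h p q) ∧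
      ∀ e : ℤ, LibgoberWood X e → LibgoberWood Y e → ∀ p q : ℤ, X.h p q = Y.h p q) ∧
    (∀ (X Y : KRing 6) (Φ : FM X Y) (L : X.R) (L' : Y.R), Intertwines Φ X.c Y.c →
      Intertwines Φ L L' → Semipositive X L → Semipositive Y L' → X.h 1 0 = Y.h 1 0 →
      (L ^ 4 ≠ 0 ∨ finrank ℂ (killed X L 2 2) = finrank ℂ (killed Y L' 2 2) ∧
        finrank ℂ (killed X L 1 3) = finrank ℂ (killed Y L' 1 3)) →
      (∀ p q : ℤ, 2 ≤ |p - q| → X.h p q = Y.h p q) ∧ X.h 2 2 = Y.h 2 2 ∧
      ∀ e : ℤ, LibgoberWood X e → LibgoberWood Y e →
        (X.h 1 1 : ℤ) - X.h 2 1 = Y.h 1 1 - Y.h 2 1 ∧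
        (X.h 1 1 = Y.h 1 1 → ∀ p q : ℤ, X.h p q = Y.h p q)) := by
  refine ⟨fun n X Y Φ L L' hc hL hX hY => ⟨fun p k hk => ?_, fun m hm h p => ?_⟩,
    fun X Y Φ L L' hc hL hX hY h10 h => ?_, fun X Y Φ L L' hc hL hX hY h10 h => ?_⟩
  · have := rank_eq hX hY hc hL (p := p) (by omega) (k := k) (by omega)
    omega
  · exact forms_all hX hY hc hL hm h p
  · have h20 := five_20 hX hY hc hL h
    exact ⟨five_off Φ h10 h20, fun e h1 h2 => five_all Φ h10 h20 h1 h2⟩
  · obtain ⟨h20, h30⟩ := six_20 hX hY hc hL h
    obtain ⟨h1, h2, -, -⟩ := six_off Φ h10 h20 h30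
    refine ⟨h1, h2, fun e h3 h4 => ?_⟩
    obtain ⟨h5, h6⟩ := six_all Φ h10 h20 h30 h3 h4
    exact ⟨by omega, h6⟩

end Pool.Agent.Results.MP_b4fe5e_ag.SemiampleFivefolds
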